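import Pool.Agent.R495.MP.Defs

/-!
# MP_849d81_co, piece FINAL
-/

namespace R495.MP

namespace FinalAux

theorem pad (hP : S_Pad) {m : ℤ} {N : ℕ} (hm : 1 ≤ m) (h : Gc m m N) (k : ℕ) :
    Gc (m + k) (m + k) (N + k) := by
  induction k with
  | zero => simpa using h
  | succ k ih =>
    have h1 := hP (m + k) (N + k) (by omega) ih
    have e1 : m + ((k + 1 : ℕ) : ℤ) = m + k + 1 := by push_cast; ring
    have e2 : N + (k + 1) = N + k + 1 := by ring
    rw [e1, e2]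
    exact h1

theorem exists_t (n : ℕ) (hn : 10 ≤ n) :
    ∃ t : ℕ, 45 * t ^ 2 + 48 * t + 10 ≤ n ∧ n ≤ 45 * t ^ 2 + 138 * t + 102 := by
  induction n, hn using Nat.le_induction with
  | base => exact ⟨0, by norm_num, by norm_num⟩
  | succ n _ ih =>
    obtain ⟨t, h1, h2⟩ := ih
    by_cases h3 : n + 1 ≤ 45 * t ^ 2 + 138 * t + 102
    · exact ⟨t, by omega, h3⟩
    · refine ⟨t + 1, ?_, ?_⟩
      · have : 45 * (t + 1) ^ 2 + 48 * (t + 1) + 10 = 45 * t ^ 2 + 138 * t + 103 := by ring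
        omega
      · have : 45 * (t + 1) ^ 2 + 138 * (t + 1) + 102 = 45 * t ^ 2 + 138 * t + 102 +
          (90 * t + 183) := by ring
        omega

theorem lower (hBr : S_Bridge) (hP : S_Pad) (hF : S_Family) (n t : ℕ)
    (h1 : 45 * t ^ 2 + 48 * t + 10 ≤ n) :
    270 * t ^ 4 + 486 * t ^ 3 + 339 * t ^ 2 + 114 * t + 15 ≤ E n := by
  obtain ⟨k, hk⟩ := Nat.exists_eq_add_of_le h1
  have hm : (1 : ℤ) ≤ 45 * (t : ℤ) ^ 2 + 48 * t + 10 := by
    have h0 : (0 : ℤ) ≤ (t : ℤ) := Int.natCast_nonneg t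
    nlinarith [sq_nonneg (t : ℤ)]
  have h2 := pad hP hm (hF t) k
  have e1 : 45 * (t : ℤ) ^ 2 + 48 * t + 10 + k = (n : ℤ) := by
    rw [hk]; push_cast; ring
  rw [e1] at h2
  have h3 := hBr n _ (by omega) h2
  omega

theorem ineq (hBr : S_Bridge) (hP : S_Pad) (hF : S_Family) (n : ℕ) :
    (2 / 15 : ℝ) * (n : ℝ) ^ 2 - 50 * (n : ℝ) * Real.sqrt n ≤ (E n : ℝ) := by
  by_cases hn : 10 ≤ n
  · obtain ⟨t, h1, h2⟩ := exists_t n hn
    have h3 := lower hBr hP hF n t h1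
    have h1' : 45 * (t : ℝ) ^ 2 + 48 * t + 10 ≤ n := by exact_mod_cast h1
    have h2' : (n : ℝ) ≤ 45 * (t : ℝ) ^ 2 + 138 * t + 102 := by exact_mod_cast h2
    have h3' : 270 * (t : ℝ) ^ 4 + 486 * t ^ 3 + 339 * t ^ 2 + 114 * t + 15 ≤ E n := by
      exact_mod_cast h3
    have ht : (0 : ℝ) ≤ t := Nat.cast_nonneg t
    have hn0 : (0 : ℝ) ≤ n := Nat.cast_nonneg n
    have h4 : 6 * (t : ℝ) + 3 ≤ Real.sqrt n := by
      apply Real.le_sqrt_of_sq_le
      nlinarith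
    have h5 : (n : ℝ) ^ 2 ≤ (45 * (t : ℝ) ^ 2 + 138 * t + 102) ^ 2 :=
      pow_le_pow_left₀ hn0 h2' 2
    have h6 : (45 * (t : ℝ) ^ 2 + 48 * t + 10) * (6 * (t : ℝ) + 3) ≤ n * Real.sqrt n :=
      mul_le_mul h1' h4 (by positivity) hn0
    have e5 : (2 / 15 : ℝ) * (45 * (t : ℝ) ^ 2 + 138 * t + 102) ^ 2 =
        270 * (t : ℝ) ^ 4 + 1656 * t ^ 3 + 3763.2 * t ^ 2 + 3753.6 * t + 1387.2 := by
      ring
    have e6 : (45 * (t : ℝ) ^ 2 + 48 * t + 10) * (6 * (t : ℝ) + 3) =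
        270 * t ^ 3 + 423 * t ^ 2 + 204 * t + 30 := by ring
    have h7 : (0 : ℝ) ≤ t ^ 3 := by positivity
    have h8 : (0 : ℝ) ≤ t ^ 2 := by positivity
    rw [e6] at h6
    have h9 : (2 / 15 : ℝ) * (n : ℝ) ^ 2 ≤
        270 * (t : ℝ) ^ 4 + 1656 * t ^ 3 + 3763.2 * t ^ 2 + 3753.6 * t + 1387.2 := by
      rw [← e5]
      exact mul_le_mul_of_nonneg_left h5 (by norm_num)
    have h10 : 50 * (n : ℝ) * Real.sqrt n = 50 * (n * Real.sqrt n) := by ring
    rw [h10]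
    linarith
  · have hE : (0 : ℝ) ≤ E n := Nat.cast_nonneg _
    rcases Nat.eq_zero_or_pos n with h0 | hpos
    · rw [h0]; simp
    · have h1 : (1 : ℝ) ≤ n := by exact_mod_cast hpos
      have h2 : (n : ℝ) ≤ 10 := by
        have : n ≤ 10 := by omega
        exact_mod_cast this
      have h3 : 1 ≤ Real.sqrt n := Real.one_le_sqrt.2 h1
      have h4 : (n : ℝ) ^ 2 ≤ 10 * n := by nlinarith
      have h5 : (n : ℝ) ≤ n * Real.sqrt n := by nlinarith
      have h6 : 50 * (n : ℝ) * Real.sqrt n = 50 * (n * Real.sqrt n) := by ring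
      rw [h6]
      linarith

end FinalAux

open FinalAux in
theorem t_Final (hBr : S_Bridge) (hP : S_Pad) (hF : S_Family) : S_Final := by
  have hineq := ineq hBr hP hF
  refine ⟨hineq, ?_⟩
  intro c hc
  have h1 : Filter.Tendsto (fun n : ℕ => (2 / 15 : ℝ) - 50 / Real.sqrt n) Filter.atTop
      (nhds (2 / 15)) := by
    have h2 : Filter.Tendsto (fun n : ℕ => Real.sqrt (n : ℝ)) Filter.atTop Filter.atTop :=
      Real.tendsto_sqrt_atTop.comp tendsto_natCast_atTop_atTop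
    have h3 : Filter.Tendsto (fun n : ℕ => 50 / Real.sqrt (n : ℝ)) Filter.atTop (nhds 0) :=
      h2.const_div_atTop 50
    simpa using (tendsto_const_nhds (x := (2 / 15 : ℝ))).sub h3
  have h4 : (2 / 15 : ℝ) ≤ c := by
    refine le_of_tendsto_of_tendsto h1 hc ?_
    filter_upwards [Filter.eventually_ge_atTop 1] with n hn
    have hn' : (0 : ℝ) < n := by exact_mod_cast hn
    have hs : 0 < Real.sqrt n := Real.sqrt_pos.2 hn'
    have hss : Real.sqrt n * Real.sqrt n = n := Real.mul_self_sqrt hn'.le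
    rw [le_div_iff₀ (by positivity)]
    have e : (2 / 15 - 50 / Real.sqrt n) * (n : ℝ) ^ 2 =
        (2 / 15 : ℝ) * (n : ℝ) ^ 2 - 50 * (n : ℝ) * Real.sqrt n := by
      rw [sub_mul]
      congr 1
      rw [div_mul_eq_mul_div, div_eq_iff hs.ne', mul_assoc, mul_assoc, hss]
      ring
    rw [e]
    exact hineq n
  refine ⟨h4, ?_⟩
  have : (4 / 33 : ℝ) < 2 / 15 := by norm_num
  linarith

end R495.MP
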