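import Pool.Agent.R497.TM.Defs

/-! Piece SCE of project TM (helper497): the conditional expectation on the invariant sets of the suspension. -/

set_option autoImplicit false

namespace Pool.Agent.R806.TM

open MeasureTheory Filter Finset
open Pool.Agent.Y957.MC (IsFlow flowInv smo)
open Pool.Agent.R497.Er (zp sus zp_zero zp_natCast zp_neg_natCast)
open Pool.Agent.R497.TM

universe u

section
variable {X : Type u} [MeasurableSpace X]

lemma zp_mem (T : X ≃ᵐ X) {A : Set X} (hA : T ⁻¹' A = A) (k : ℤ) (x : X) :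
    zp T k x ∈ A ↔ x ∈ A := by
  have h1 : ∀ x, T x ∈ A ↔ x ∈ A := fun x => by
    have := congrArg (fun S : Set X => x ∈ S) hA
    simpa using this
  have h2 : ∀ x, T.symm x ∈ A ↔ x ∈ A := fun x => by
    have := h1 (T.symm x)
    rw [MeasurableEquiv.apply_symm_apply] at this
    exact this.symm
  rcases Int.eq_nat_or_neg k with ⟨n, rfl | rfl⟩
  · rw [zp_natCast]
    induction n with
    | zero => simp
    | succ n ih =>
      rw [Function.iterate_succ_apply']
      exact (h1 _).trans ih
  · rw [zp_neg_natCast]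
    induction n with
    | zero => simp
    | succ n ih =>
      rw [Function.iterate_succ_apply']
      exact (h2 _).trans ih

lemma flowInv_iff (T : X ≃ᵐ X) (A : Set (ℝ × X)) :
    MeasurableSet[flowInv (sus T)] A ↔ ∀ t : ℝ, MeasurableSet A ∧ sus T t ⁻¹' A = A := by
  unfold flowInv
  rw [MeasurableSpace.measurableSet_iInf]
  exact forall_congr' fun t => MeasurableSpace.measurableSet_invariants

lemma flowInv_le (T : X ≃ᵐ X) : flowInv (sus T) ≤ (inferInstance : MeasurableSpace (ℝ × X)) := by
  intro A hA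
  exact ((flowInv_iff T A).1 hA 0).1

lemma meas_snd (T : X ≃ᵐ X) :
    @Measurable (ℝ × X) X (flowInv (sus T)) (MeasurableSpace.invariants T) Prod.snd := by
  intro A hA
  rw [flowInv_iff]
  intro t
  rw [MeasurableSpace.measurableSet_invariants] at hA
  refine ⟨measurable_snd hA.1, ?_⟩
  ext p
  exact zp_mem T hA.2 _ _

lemma mem_zero (T : X ≃ᵐ X) {A : Set (ℝ × X)} (hA : MeasurableSet[flowInv (sus T)] A) (s : ℝ)
    (hs : s ∈ Set.Ico (0:ℝ) 1) (x : X) : (s, x) ∈ A ↔ ((0:ℝ), x) ∈ A := by
  have h1 := ((flowInv_iff T A).1 hA s).2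
  have h2 : sus T s ((0:ℝ), x) = (s, x) := by
    unfold sus
    have h3 : Int.fract s = s := Int.fract_eq_self.2 hs
    have h4 : ⌊s⌋ = 0 := Int.floor_eq_zero_iff.2 hs
    simp [h3, h4, zp_zero]
  have h5 := congrArg (fun S : Set (ℝ × X) => ((0:ℝ), x) ∈ S) h1
  simp only [Set.mem_preimage, h2] at h5
  exact iff_of_eq h5

lemma zero_inv (T : X ≃ᵐ X) {A : Set (ℝ × X)} (hA : MeasurableSet[flowInv (sus T)] A) :
    MeasurableSet[MeasurableSpace.invariants T] {x : X | ((0:ℝ), x) ∈ A} := by
  rw [MeasurableSpace.measurableSet_invariants]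
  refine ⟨measurable_prodMk_left ((flowInv_iff T A).1 hA 0).1, ?_⟩
  ext x
  have h1 := ((flowInv_iff T A).1 hA 1).2
  have h2 : sus T 1 ((0:ℝ), x) = ((0:ℝ), T x) := by
    unfold sus
    have h3 : zp T 1 x = T x := by
      have := zp_natCast T 1 x
      simpa using this
    simp [h3]
  have h5 := congrArg (fun S : Set (ℝ × X) => ((0:ℝ), x) ∈ S) h1
  simp only [Set.mem_preimage, h2] at h5
  exact iff_of_eq h5

end

theorem t_SCE : S_SCE.{u} := by
  intro X _ μ _ T f hT hf hC
  obtain ⟨C, hC⟩ := hC
  have hfi : Integrable f μ := Integrable.of_bound hf C hC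
  have hprob : IsProbabilityMeasure (nu μ) := by unfold nu; infer_instance
  have hmp : MeasurePreserving (Prod.snd : ℝ × X → X) (nu μ) μ := by
    unfold nu; exact measurePreserving_snd
  have hle := flowInv_le T
  have hle' : MeasurableSpace.invariants T ≤ (inferInstance : MeasurableSpace X) :=
    MeasurableSpace.invariants_le _
  have hgi : Integrable (μ[f | MeasurableSpace.invariants T]) μ := integrable_condExp
  have hgs : StronglyMeasurable[MeasurableSpace.invariants T] (μ[f | MeasurableSpace.invariants T]) :=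
    stronglyMeasurable_condExp
  have hfi2 : Integrable (fun p : ℝ × X => f p.2) (nu μ) := hmp.integrable_comp_of_integrable hfi
  have hgi2 : Integrable (fun p : ℝ × X => (μ[f | MeasurableSpace.invariants T]) p.2) (nu μ) :=
    hmp.integrable_comp_of_integrable hgi
  have hae : ∀ᵐ p ∂(nu μ), p.1 ∈ Set.Ico (0:ℝ) 1 := by
    unfold nu
    exact Measure.quasiMeasurePreserving_fst.ae (ae_restrict_mem measurableSet_Ico)
  have hset : ∀ (A : Set (ℝ × X)), MeasurableSet[flowInv (sus T)] A → ∀ h : X → ℂ, Integrable h μ →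
      ∫ p in A, h p.2 ∂(nu μ) = ∫ x in {x : X | ((0:ℝ), x) ∈ A}, h x ∂μ := by
    intro A hA h hh
    have hA0 : MeasurableSet {x : X | ((0:ℝ), x) ∈ A} := hle' _ (zero_inv T hA)
    have e1 : A =ᵐ[nu μ] (Prod.snd ⁻¹' {x : X | ((0:ℝ), x) ∈ A}) := by
      filter_upwards [hae] with p hp
      exact propext (mem_zero T hA p.1 hp p.2)
    rw [setIntegral_congr_set e1]
    have e2 := setIntegral_map (μ := nu μ) (g := (Prod.snd : ℝ × X → X)) (f := h) hA0
      (by rw [hmp.map_eq]; exact hh.aestronglyMeasurable) hmp.measurable.aemeasurable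
    rw [hmp.map_eq] at e2
    exact e2.symm
  symm
  apply ae_eq_condExp_of_forall_setIntegral_eq hle hfi2
  · intro s _ _
    exact hgi2.integrableOn
  · intro s hs _
    rw [hset s hs _ hgi, hset s hs _ hfi]
    exact setIntegral_condExp hle' hfi (zero_inv T hs)
  · exact (hgs.comp_measurable (meas_snd T)).aestronglyMeasurable

end Pool.Agent.R806.TM
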